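import Pool.Agent.V11188.VB.E

/-!
# Q1 of MP_ff773e_gt: yes

There is a non-increasing `f : (0,1) → (0,∞)`, independent of the dimension, with
`inf_x β(B_2^n, V + x) ≤ inf_y f(γ_n(V + y))` for every convex body `V` in `ℝ^n`.
Rotating `V × V` by 45 degrees gives a symmetric slice of Gaussian measure at least `γ_n(V)^2`
contained in a multiple of a translate of `V`; symmetric sets of positive measure become large
after a dimension free dilation, and then Banaszczyk's method applies.
-/

set_option autoImplicit false

namespace Pool.Agent.Results.MP_ff773e_gt.Translates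

open MeasureTheory ProbabilityTheory Set Pool.Agent.V11188.VB

/-- the translate `V + x` -/
def tr {n : ℕ} (V : Set (EuclideanSpace ℝ (Fin n))) (x : EuclideanSpace ℝ (Fin n)) :
    Set (EuclideanSpace ℝ (Fin n)) := (fun v => v + x) '' V

/-- the standard Gaussian measure `γ_n(A)` as a real number -/
noncomputable def gam {n : ℕ} (A : Set (EuclideanSpace ℝ (Fin n))) : ℝ :=
  (stdGaussian (EuclideanSpace ℝ (Fin n)) A).toReal

theorem result :
    ∃ f : ℝ → ℝ, AntitoneOn f (Ioo 0 1) ∧ (∀ p ∈ Ioo (0:ℝ) 1, 0 < f p) ∧
      ∀ n : ℕ, 1 ≤ n → ∀ V : Set (EuclideanSpace ℝ (Fin n)),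
        IsCompact V → Convex ℝ V → (interior V).Nonempty →
          -- `β` is the least constant for every translate with the origin in the interior
          (∀ x, 0 ∈ interior (tr V x) →
            IsLeast {C : ℝ | 0 < C ∧ Balances n (tr V x) C} (beta n (tr V x))) ∧
          -- for every translate `V + y` there is a translate `V + x` with `β ≤ f(γ(V + y))`
          (∀ y, ∃ x, 0 ∈ interior (tr V x) ∧ beta n (tr V x) ≤ f (gam (tr V y))) ∧
          -- the inequality of Q1
          ⨅ x : {x // 0 ∈ interior (tr V x)}, beta n (tr V x) ≤ ⨅ y, f (gam (tr V y)) := by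
  refine ⟨ff, ff_anti.mono (fun p hp => hp.1), fun p _ => ff_pos p, ?_⟩
  intro n hn V hV hc hi
  have hcpt : ∀ x, IsCompact (tr V x) := fun x => hV.image (by fun_prop)
  have hcvx : ∀ x, Convex ℝ (tr V x) := fun x => by
    have h := hc.translate x
    have e : tr V x = (fun v => x + v) '' V := by
      unfold tr
      refine image_congr fun v _ => add_comm _ _
    rw [e]
    exact h
  have key : ∀ y, ∃ x, 0 ∈ interior (tr V x) ∧ beta n (tr V x) ≤ ff (gam (tr V y)) := by
    intro y
    have hp : 0 < gam (tr V y) := gauss_translate_pos hi y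
    obtain ⟨x, hx, hB⟩ := translate_bal (hcpt y).isClosed (hcvx y) (gam (tr V y)) hp le_rfl
    have e : (fun v => v + x) '' tr V y = tr V (y + x) := by
      unfold tr
      rw [image_image]
      congr 1
      ext v
      rw [add_assoc]
    refine ⟨y + x, ?_, ?_⟩
    · rw [← e]; exact hx
    · rw [← e]
      exact beta_le (ff_pos _) (balances_of_seq hB)
  refine ⟨fun x hx => beta_isLeast hn (hcpt x) hx, key, ?_⟩
  apply le_ciInf
  intro y
  obtain ⟨x, hx, h⟩ := key y
  refine (ciInf_le ⟨0, ?_⟩ (⟨x, hx⟩ : {x // 0 ∈ interior (tr V x)})).trans h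
  rintro _ ⟨x, rfl⟩
  exact beta_nonneg _

end Pool.Agent.Results.MP_ff773e_gt.Translates
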